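import Mathlib
import Pool.Agent.H67.AE.FinalC

/-!
Let `mu` be the Moebius function of the poset of all permutations ordered by pattern containment.
For every `c > 2`, for almost all permutations `π` of size `n` one has `|mu(σ, π)| ≤ c ^ n` for
all patterns `σ` of `π`, in particular for the pattern of size one.

As in the frozen statement, `π` (of size `m`) contains `σ` (of size `k`) as a pattern if
`∃ e : Fin k ↪o Fin m, ∀ i j, σ i < σ j ↔ π (e i) < π (e j)`.
The hypotheses `h1` and `h2` are the defining relations `mu(σ, σ) = 1` and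
`∑_{σ ≤ τ ≤ π} mu(σ, τ) = 0` for `σ < π`.
-/

set_option autoImplicit false

open Classical

namespace Pool.Agent.Results.MP_314710_co.AlmostAll

theorem filter_inst {α : Type} (s : Finset α) (p q : α → Prop) (i1 : DecidablePred p)
    (i2 : DecidablePred q) (h : ∀ a, p a ↔ q a) :
    @Finset.filter α p i1 s = @Finset.filter α q i2 s := by
  ext a
  rw [Finset.mem_filter, Finset.mem_filter, h a]

theorem result (mu : (k : ℕ) → Equiv.Perm (Fin k) → (m : ℕ) → Equiv.Perm (Fin m) → ℤ)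
    (h1 : ∀ (k : ℕ) (σ : Equiv.Perm (Fin k)), 1 ≤ k → mu k σ k σ = 1)
    (h2 : ∀ (k : ℕ) (σ : Equiv.Perm (Fin k)) (n : ℕ) (π : Equiv.Perm (Fin n)), 1 ≤ k → k < n →
      (∃ e : Fin k ↪o Fin n, ∀ i j : Fin k, σ i < σ j ↔ π (e i) < π (e j)) →
      ∑ j ∈ Finset.Icc k n,
        ∑ τ ∈ (Finset.univ : Finset (Equiv.Perm (Fin j))).filter (fun τ =>
          (∃ e : Fin k ↪o Fin j, ∀ i i' : Fin k, σ i < σ i' ↔ τ (e i) < τ (e i')) ∧
          (∃ e : Fin j ↪o Fin n, ∀ i i' : Fin j, τ i < τ i' ↔ π (e i) < π (e i'))),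
          mu k σ j τ = 0)
    (c : ℝ) (hc : 2 < c) (ε : ℝ) (hε : 0 < ε) :
    ∃ N : ℕ, ∀ n : ℕ, N ≤ n →
      (((Finset.univ : Finset (Equiv.Perm (Fin n))).filter (fun π =>
        ∃ (k : ℕ) (σ : Equiv.Perm (Fin k)), 1 ≤ k ∧
          (∃ e : Fin k ↪o Fin n, ∀ i j : Fin k, σ i < σ j ↔ π (e i) < π (e j)) ∧
          c ^ n < |(mu k σ n π : ℝ)|)).card : ℝ) ≤
        ε * (n.factorial : ℝ) := by
  refine Pool.Agent.H67.AE.almost_all_c mu h1 (fun k σ n π hk hkn hcont => ?_) c hc ε hε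
  refine Eq.trans (Finset.sum_congr rfl fun j _ => ?_) (h2 k σ n π hk hkn hcont)
  exact Finset.sum_congr (filter_inst _ _ _ _ _ fun _ => Iff.rfl) (fun _ _ => rfl)

end Pool.Agent.Results.MP_314710_co.AlmostAll
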