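import Mathlib
import Pool.Agent.H68.PS.Final

/-!
Let `mu` be the principal Moebius function of the poset of all permutations ordered by pattern
containment, as in the frozen statement S07949: `mu 1 1 = 1` and the sum of `mu` over the nonempty
patterns contained in `π` is `0` if `π` has size at least two.  Then
`|mu n π| ≤ n ^ ((99 / 100) * n)` for all sufficiently large `n` and ALL permutations `π` of size `n`.
-/

set_option autoImplicit false
open Classical

namespace Pool.Agent.Results.MP_314710_co.PowerSaving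

theorem result (mu : (k : ℕ) → Equiv.Perm (Fin k) → ℤ) (h1 : mu 1 1 = 1)
    (h2 : ∀ n : ℕ, 2 ≤ n → ∀ π : Equiv.Perm (Fin n),
      ∑ k ∈ Finset.Icc 1 n,
        ∑ σ ∈ (Finset.univ : Finset (Equiv.Perm (Fin k))).filter
          (fun σ => ∃ e : Fin k ↪o Fin n, ∀ i j : Fin k, σ i < σ j ↔ π (e i) < π (e j)),
          mu k σ = 0) :
    ∃ N : ℕ, ∀ n : ℕ, N ≤ n → ∀ π : Equiv.Perm (Fin n),
      ((|mu n π| : ℤ) : ℝ) ≤ (n : ℝ) ^ ((99 / 100 : ℝ) * (n : ℝ)) :=
  Pool.Agent.H68.PS.power_saving mu h1 h2

end Pool.Agent.Results.MP_314710_co.PowerSaving
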